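import Pool.Agent.H929Z.AMC.Main

set_option autoImplicit false

namespace Pool.Agent.Results.MP_918dbb_lc.AFalse

open Pool.Agent.H929Z.AMC

universe w

/-- A theory extending ZFC and a partial Morleyization containing the bounded one, with a model
companion but no absolute model companion. -/
theorem result : ∃ S : LMem.Theory, ZFC ⊆ S ∧ ∃ A : Set (Form × Bool), Dmax ⊆ A ∧
    (∃ T : (LA A).Theory, IsMC.{w} T (expand S A)) ∧
      ¬ ∃ T : (LA A).Theory, IsAMC.{w} T (expand S A) :=
  main

end Pool.Agent.Results.MP_918dbb_lc.AFalse
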